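import Pool.Agent.Lib_helper97.PENT.Defs

set_option autoImplicit false

namespace Pool.Agent.PENT

open Finset

theorem t2_idx (i j : Fin 5) : j + 1 + i = j + i + 1 := by
  revert i j; decide

theorem t2_idxm (i j : Fin 5) : j - 1 + i = j + i - 1 := by
  revert i j; decide

theorem t2_d (i : Fin 5) (τ : Pol 5) (j : Fin 5) : (τ.rot i).d j = τ.d (j + i) := by
  show dt (τ.u (j + i)) (τ.u (j + 1 + i)) = dt (τ.u (j + i)) (τ.u (j + i + 1))
  rw [t2_idx]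

theorem t2_q (i : Fin 5) (τ : Pol 5) (j : Fin 5) : (τ.rot i).q j = τ.q (j + i) := rfl

theorem t2_y (i : Fin 5) (τ : Pol 5) (j : Fin 5) : (τ.rot i).y j = τ.y (j + i) := by
  unfold Pol.y
  rw [t2_d, t2_d, t2_q, t2_idxm]

theorem t2_n (i : Fin 5) (τ : Pol 5) (j : Fin 5) : (τ.rot i).n j = τ.n (j + i) := by
  unfold Pol.n
  rw [t2_d]
  show (bf τ.a τ.b τ.c (τ.u (j + i)) (τ.u (j + 1 + i)) / τ.d (j + i)).natAbs = _
  rw [t2_idx]

theorem TS_rot_pr {p : Par} {X : ℕ} {τ : Pol 5} (i : Fin 5) (h : p.TS X τ) :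
    (p.rot i).TS X (τ.rot i) := by
  refine ⟨h.ha1, h.ha2, h.hb1, h.hb2, ⟨h.good.disc, fun j => ?_, fun j => ?_, fun j => ?_⟩,
    ⟨fun j => h.gp.pos1 _, fun j => h.gp.pos2 _, fun j => h.gp.low _, fun j => h.gp.upp _,
      fun k j hkj => ?_, fun j => ?_, fun k j hkj => ?_, fun j k hk hk1 => ?_⟩⟩
  · rw [t2_d]
    exact h.good.ne _
  · rw [t2_d, t2_q]
    exact h.good.d1 _
  · rw [t2_d, t2_q, t2_idx]
    exact h.good.d2 _
  · exact h.gp.sep (k + i) (j + i) fun he => hkj (add_right_cancel he)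
  · show DP (PP X) (dt (τ.u (j + i)) (τ.u (j + 1 + i))).natAbs
    rw [t2_idx]
    exact h.gp.dp _
  · show IsCoprime (dt (τ.u (k + i)) (τ.u (k + 1 + i))) (dt (τ.u (j + i)) (τ.u (j + 1 + i)))
    rw [t2_idx, t2_idx]
    exact h.gp.cop (k + i) (j + i) fun he => hkj (add_right_cancel he)
  · show IsCoprime (dt (τ.u (j + i)) (τ.u (j + 1 + i))) (dt (τ.u (j + i)) (τ.u (k + i)))
    rw [t2_idx]
    refine h.gp.nice _ _ (fun he => hk (add_right_cancel he)) fun he => hk1 ?_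
    rw [← t2_idx] at he
    exact add_right_cancel he

theorem w_rot_pr (p : Par) (X : ℕ) (i : Fin 5) (τ : Pol 5) :
    (p.rot i).w X (τ.rot i) = p.w X τ := by
  unfold Par.w
  refine Fintype.prod_equiv (Equiv.addRight i) _ _ fun j => ?_
  rw [t2_d, t2_y]
  rfl

theorem n_rot_pr (i : Fin 5) (τ : Pol 5) : (τ.rot i).n 0 = τ.n i := by
  rw [t2_n, zero_add]

theorem Ok_rot_pr {p : Par} {κ : ℝ} (h : p.Ok κ) (i : Fin 5) : (p.rot i).Ok κ := by
  refine ⟨h.ep0, fun j => h.e4 _, fun j => ?_, fun j => h.ek _, h.c10, h.c11,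
    fun j k => h.sg1 _ _⟩
  show 4 * p.ep ≤ |p.e (j + i) - p.e (j + 1 + i)|
  rw [t2_idx]
  exact h.gap _

theorem rot_inj_pr (i : Fin 5) {τ τ' : Pol 5} (h : τ.rot i = τ'.rot i) : τ = τ' := by
  obtain ⟨a, b, c, u⟩ := τ
  obtain ⟨a', b', c', u'⟩ := τ'
  simp only [Pol.rot, Pol.mk.injEq] at h ⊢
  obtain ⟨h1, h2, h3, h4⟩ := h
  refine ⟨h1, h2, h3, funext fun k => ?_⟩
  have := congrFun h4 (k - i)
  simpa using this

theorem rot_rot_neg_pr (i : Fin 5) (τ : Pol 5) : (τ.rot (-i)).rot i = τ := by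
  obtain ⟨a, b, c, u⟩ := τ
  simp only [Pol.rot, Pol.mk.injEq]
  refine ⟨trivial, trivial, trivial, funext fun k => ?_⟩
  rw [add_neg_cancel_right]

theorem par_rot_rot_neg_pr (p : Par) (i : Fin 5) : (p.rot i).rot (-i) = p := by
  obtain ⟨e, ep, c1, ta, sg⟩ := p
  simp only [Par.rot, neg_add_cancel_right]

end Pool.Agent.PENT
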